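import Mathlib
import Pool.Agent.L0h37.TZ

set_option autoImplicit false

/-!
# At least 98.8 percent of all quadratic characters have at most two zeros in `(0,1)`
-/

namespace Pool.Agent.Results.MP_0016c7_nt.AtMostTwoRealZeros

/-- The pairs `(N, χ)` with `1 ≤ N ≤ X` and `χ` a nontrivial quadratic Dirichlet character
modulo `N` (not necessarily primitive). -/
def Quadratic (X : ℕ) : Set (Σ N : ℕ, DirichletCharacter ℂ N) :=
  {p | p.1 ≠ 0 ∧ p.1 ≤ X ∧ p.2 ^ 2 = 1 ∧ p.2 ≠ 1}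

/-- Those with `χ` primitive. -/
def QuadraticPrimitive (X : ℕ) : Set (Σ N : ℕ, DirichletCharacter ℂ N) :=
  {p | p ∈ Quadratic X ∧ p.2.IsPrimitive}

/-- `L(s,χ)` has at most two zeros in the real interval `(0,1)`, counted with multiplicity:
for every finite set `S` of real numbers in `(0,1)`, the orders of vanishing of `L(·,χ)` at the
points of `S` add up to at most `2`. -/
def AtMostTwoZeros (p : Σ N : ℕ, DirichletCharacter ℂ N) : Prop :=
  ∃ _ : NeZero p.1, ∀ S : Finset ℝ, (∀ s ∈ S, 0 < s ∧ s < 1) →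
    ∑ s ∈ S, analyticOrderAt (DirichletCharacter.LFunction p.2) (s : ℂ) ≤ 2

open Pool.Agent.H306R2.RG

/-- **Theorem.** For all large `X`, at least 98.8 percent of all nontrivial quadratic Dirichlet
characters `χ` modulo `N`, `N ≤ X`, have the property that `L(s,χ)` has at most two zeros in the
interval `0 < s < 1`, counted with multiplicity; the same holds for the primitive ones. -/
theorem result : (∀ X : ℕ, (Quadratic X).Finite) ∧
    (∃ X0 : ℕ, ∀ X : ℕ, X0 ≤ X →
      (988 / 1000 : ℝ) * ((Quadratic X).ncard : ℝ) ≤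
        ((Quadratic X ∩ {p | AtMostTwoZeros p}).ncard : ℝ)) ∧
    (∃ X0 : ℕ, ∀ X : ℕ, X0 ≤ X →
      (988 / 1000 : ℝ) * ((QuadraticPrimitive X).ncard : ℝ) ≤
        ((QuadraticPrimitive X ∩ {p | AtMostTwoZeros p}).ncard : ℝ)) := by
  obtain ⟨hf, ⟨N1, h1⟩, ⟨N2, h2⟩⟩ := Pool.Agent.L0h37.TZ.main
  have hset : ∀ X : ℕ, QuadraticPrimitive X = LnkC.RPC ∩ {p | p.1 ≤ X} := by
    intro X
    ext p
    simp only [QuadraticPrimitive, Quadratic, LnkC.RPC, Set.mem_inter_iff, Set.mem_ofPred_eq]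
    tauto
  have hset' : ∀ X : ℕ, Quadratic X = LnkD.QC ∩ {p | p.1 ≤ X} := by
    intro X
    ext p
    simp only [Quadratic, LnkD.QC, Set.mem_inter_iff, Set.mem_ofPred_eq]
    tauto
  refine ⟨fun X => ?_, ⟨N1, fun X hX => ?_⟩, ⟨N2, fun X hX => ?_⟩⟩
  · rw [hset']
    exact hf X
  · rw [hset']
    exact h1 X hX
  · rw [hset]
    exact h2 X hX

end Pool.Agent.Results.MP_0016c7_nt.AtMostTwoRealZeros
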