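import Mathlib
import Pool.Agent.L0h37.EF

set_option autoImplicit false

/-!
# Exponential decay in the frequency of real zeros of quadratic `L`-functions
-/

namespace Pool.Agent.Results.MP_0016c7_nt.ExponentialDecayRealZeros

/-- The pairs `(N, χ)` with `1 ≤ N ≤ X` and `χ` a nontrivial quadratic Dirichlet character
modulo `N` (not necessarily primitive). -/
def Quadratic (X : ℕ) : Set (Σ N : ℕ, DirichletCharacter ℂ N) :=
  {p | p.1 ≠ 0 ∧ p.1 ≤ X ∧ p.2 ^ 2 = 1 ∧ p.2 ≠ 1}

/-- Those with `χ` primitive. -/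
def QuadraticPrimitive (X : ℕ) : Set (Σ N : ℕ, DirichletCharacter ℂ N) :=
  {p | p ∈ Quadratic X ∧ p.2.IsPrimitive}

/-- `L(s,χ)` has at most `m` zeros in the real interval `(0,1)`, counted with multiplicity:
for every finite set `S` of real numbers in `(0,1)`, the orders of vanishing of `L(·,χ)` at the
points of `S` add up to at most `m`. -/
def AtMostZeros (m : ℕ) (p : Σ N : ℕ, DirichletCharacter ℂ N) : Prop :=
  ∃ _ : NeZero p.1, ∀ S : Finset ℝ, (∀ s ∈ S, 0 < s ∧ s < 1) →
    ∑ s ∈ S, analyticOrderAt (DirichletCharacter.LFunction p.2) (s : ℂ) ≤ (m : ℕ∞)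

open Pool.Agent.H306R2.RG

/-- **Theorem.** There is a constant `C` such that for every `m` and all large `X`, at most the
proportion `C e^{-m/2}` of the nontrivial quadratic Dirichlet characters `χ` modulo `N`, `N ≤ X`,
have more than `m` zeros of `L(s,χ)` in the interval `0 < s < 1`, counted with multiplicity; the
same holds for the primitive ones. -/
theorem result : (∀ X : ℕ, (Quadratic X).Finite) ∧
    ∃ C : ℝ, ∀ m : ℕ, ∃ X0 : ℕ, ∀ X : ℕ, X0 ≤ X →
      ((Quadratic X ∩ {p | ¬ AtMostZeros m p}).ncard : ℝ) ≤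
        C * Real.exp (-((m : ℝ) / 2)) * ((Quadratic X).ncard : ℝ) ∧
      ((QuadraticPrimitive X ∩ {p | ¬ AtMostZeros m p}).ncard : ℝ) ≤
        C * Real.exp (-((m : ℝ) / 2)) * ((QuadraticPrimitive X).ncard : ℝ) := by
  obtain ⟨hf, -, C, hC⟩ := Pool.Agent.L0h37.EF.main
  have hset : ∀ X : ℕ, QuadraticPrimitive X = LnkC.RPC ∩ {p | p.1 ≤ X} := by
    intro X
    ext p
    simp only [QuadraticPrimitive, Quadratic, LnkC.RPC, Set.mem_inter_iff, Set.mem_ofPred_eq]
    tauto
  have hset' : ∀ X : ℕ, Quadratic X = LnkD.QC ∩ {p | p.1 ≤ X} := by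
    intro X
    ext p
    simp only [Quadratic, LnkD.QC, Set.mem_inter_iff, Set.mem_ofPred_eq]
    tauto
  refine ⟨fun X => ?_, C, fun m => ?_⟩
  · rw [hset']
    exact hf X
  · obtain ⟨N, hN⟩ := hC m
    refine ⟨N, fun X hX => ?_⟩
    rw [hset, hset']
    exact hN X hX

end Pool.Agent.Results.MP_0016c7_nt.ExponentialDecayRealZeros
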