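import Mathlib
import Pool.Agent.L0h37.AF

set_option autoImplicit false

/-!
# Quadratic `L(s,χ)` without real zeros: nearly seven eighths, in every local class

At least 87.41 percent of all nontrivial quadratic Dirichlet characters, and at least 87.41 percent
of the primitive ones in every class given by prescribed values at finitely many primes and a
prescribed parity, satisfy `L(σ,χ) > 0` for all `0 < σ < 1`.
-/

namespace Pool.Agent.Results.MP_0016c7_nt.NearSevenEighths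

/-- The pairs `(N, χ)` with `1 ≤ N ≤ X` and `χ` a nontrivial quadratic Dirichlet character modulo
`N`, primitive or not. -/
def Quadratic (X : ℕ) : Set (Σ N : ℕ, DirichletCharacter ℂ N) :=
  {p | p.1 ≠ 0 ∧ p.1 ≤ X ∧ p.2 ^ 2 = 1 ∧ p.2 ≠ 1}

/-- The pairs `(N, χ)` with `1 ≤ N ≤ X` and `χ` a nontrivial primitive quadratic Dirichlet
character modulo `N` such that `χ(-1) = s` and `χ(q) = c q` for all `q ∈ S`. -/
def Class (S : Finset ℕ) (c : ℕ → ℤ) (s : ℤ) (X : ℕ) : Set (Σ N : ℕ, DirichletCharacter ℂ N) :=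
  {p | p.1 ≠ 0 ∧ p.1 ≤ X ∧ p.2.IsPrimitive ∧ p.2 ^ 2 = 1 ∧ p.2 ≠ 1 ∧ p.2 (-1) = (s : ℂ) ∧
    ∀ q ∈ S, p.2 (q : ZMod p.1) = (c q : ℂ)}

/-- `L(s,χ)` is real and positive for every real `s` with `0 < s < 1`. -/
def Positive (p : Σ N : ℕ, DirichletCharacter ℂ N) : Prop :=
  ∃ _ : NeZero p.1, ∀ s : ℝ, 0 < s → s < 1 →
    (DirichletCharacter.LFunction p.2 (s : ℂ)).im = 0 ∧
    0 < (DirichletCharacter.LFunction p.2 (s : ℂ)).re

/-- **Theorem.** (a) For all large `X`, at least 87.41 percent of the nontrivial quadratic Dirichlet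
characters of modulus at most `X` satisfy `L(σ,χ) > 0` for all `0 < σ < 1`. (b) Let `S` be a finite
set of primes, `c q ∈ {0, 1, -1}` for `q ∈ S`, and `s ∈ {1, -1}`. The primitive quadratic characters
with `χ(q) = c q` for `q ∈ S` and `χ(-1) = s` are at least `κ X` in number up to conductor `X`, with
some `κ > 0`, and for all large `X` at least 87.41 percent of them have the same property. -/
theorem result :
    ((∀ X : ℕ, (Quadratic X).Finite) ∧
      (∃ X0 : ℕ, ∀ X : ℕ, X0 ≤ X →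
        (8741 / 10000 : ℝ) * ((Quadratic X).ncard : ℝ) ≤
          ((Quadratic X ∩ {p | Positive p}).ncard : ℝ))) ∧
    (∀ (S : Finset ℕ), (∀ q ∈ S, q.Prime) → ∀ (c : ℕ → ℤ),
      (∀ q ∈ S, c q = 0 ∨ c q = 1 ∨ c q = -1) → ∀ (s : ℤ), (s = 1 ∨ s = -1) →
      (∀ X : ℕ, (Class S c s X).Finite) ∧
      (∃ κ : ℝ, 0 < κ ∧ ∃ X0 : ℕ, ∀ X : ℕ, X0 ≤ X →
        κ * (X : ℝ) ≤ ((Class S c s X).ncard : ℝ)) ∧
      (∃ X0 : ℕ, ∀ X : ℕ, X0 ≤ X →
        (8741 / 10000 : ℝ) * ((Class S c s X).ncard : ℝ) ≤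
          ((Class S c s X ∩ {p | Positive p}).ncard : ℝ))) := by
  constructor
  · obtain ⟨h1, N, h2⟩ := Pool.Agent.L0h37.AF.mainG
    have e1 : ∀ X : ℕ, Quadratic X = Pool.Agent.H306R2.RG.LnkD.QC ∩ {p | p.1 ≤ X} := by
      intro X
      ext p
      simp only [Quadratic, Pool.Agent.H306R2.RG.LnkD.QC, Set.mem_inter_iff, Set.mem_ofPred_eq]
      tauto
    refine ⟨fun X => ?_, N, fun X hX => ?_⟩
    · rw [e1]
      exact h1 X
    · rw [e1]
      exact h2 X hX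
  · intro S hS c hc s hs
    obtain ⟨h1, ⟨κ, N1, hκ, h2⟩, ⟨N2, h3⟩⟩ := Pool.Agent.L0h37.AF.mainL S hS c hc s hs
    have e1 : ∀ X : ℕ, Class S c s X = Pool.Agent.H306R2.RG.LnkC.RPC ∩
        (Pool.Agent.W161.LF.CL S c s ∩ {p | p.1 ≤ X}) := by
      intro X
      ext p
      simp only [Class, Pool.Agent.H306R2.RG.LnkC.RPC, Pool.Agent.W161.LF.CL, Set.mem_inter_iff,
        Set.mem_ofPred_eq]
      tauto
    have e2 : ∀ X : ℕ, Class S c s X ∩ {p | Positive p} = Pool.Agent.H306R2.RG.LnkC.RPC ∩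
        ((Pool.Agent.W161.LF.CL S c s ∩ {p | p.1 ≤ X}) ∩
          {p | Pool.Agent.H306R2.RG.LnkC.POS p}) := by
      intro X
      rw [e1, Set.inter_assoc]
      rfl
    refine ⟨fun X => ?_, ⟨κ, hκ, N1, fun X hX => ?_⟩, ⟨N2, fun X hX => ?_⟩⟩
    · rw [e1]
      exact h1 X
    · rw [e1]
      exact h2 X hX
    · rw [e2, e1]
      refine le_trans ?_ (h3 X hX)
      have h4 : (0 : ℝ) ≤ ((Pool.Agent.H306R2.RG.LnkC.RPC ∩
        (Pool.Agent.W161.LF.CL S c s ∩ {p | p.1 ≤ X})).ncard : ℝ) := Nat.cast_nonneg _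
      nlinarith

end Pool.Agent.Results.MP_0016c7_nt.NearSevenEighths
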