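import Mathlib
import Pool.Agent.L0h86.RZc.All

set_option autoImplicit false

/-!
# Exponential moments of the number of real and low-lying zeros of quadratic Dirichlet
L-functions
-/

namespace Pool.Agent.Results.MP_0016c7_nt.NumberOfRealZeros

/-- The pairs `(N, χ)` with `1 ≤ N ≤ X` and `χ` a nontrivial quadratic Dirichlet character
modulo `N` (not necessarily primitive). -/
def Quadratic (X : ℕ) : Set (Σ N : ℕ, DirichletCharacter ℂ N) :=
  {p | p.1 ≠ 0 ∧ p.1 ≤ X ∧ p.2 ^ 2 = 1 ∧ p.2 ≠ 1}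

/-- Those with `χ` primitive. -/
def QuadraticPrimitive (X : ℕ) : Set (Σ N : ℕ, DirichletCharacter ℂ N) :=
  {p | p ∈ Quadratic X ∧ p.2.IsPrimitive}

/-- The union of the real interval `(0,1)` and the closed disc of radius `r` about `1/2`. -/
def Region (r : ℝ) : Set ℂ := {s | (s.im = 0 ∧ 0 < s.re ∧ s.re < 1) ∨ ‖s - 1 / 2‖ ≤ r}

/-- `L(s,χ)` has at most `k` zeros in `A`, counted with multiplicity: for every finite set `S` of
points of `A`, the orders of vanishing of `L(·,χ)` at the points of `S` add up to at most `k`. -/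
def AtMost (p : Σ N : ℕ, DirichletCharacter ℂ N) (A : Set ℂ) (k : ℕ) : Prop :=
  ∃ _ : NeZero p.1, ∀ S : Finset ℂ, (∀ s ∈ S, s ∈ A) →
    ∑ s ∈ S, analyticOrderAt (DirichletCharacter.LFunction p.2) s ≤ k

/-- The number of zeros of `L(s,χ)` in `A`, counted with multiplicity: the least `k` such that
there are at most `k` zeros. -/
noncomputable def zeros (p : Σ N : ℕ, DirichletCharacter ℂ N) (A : Set ℂ) : ℕ :=
  sInf {k | AtMost p A k}

/-- The bounds of the theorem, for a set `F` of characters of modulus at most `X`. -/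
def Bounds (C c : ℝ) (X : ℕ) (r : ℝ) (F : Set (Σ N : ℕ, DirichletCharacter ℂ N)) : Prop :=
  F.Finite ∧
  -- the numbers of zeros are finite
  (∀ p ∈ F, AtMost p (Region r) (zeros p (Region r))) ∧
  -- exponential moment of the number of zeros
  (∑ᶠ p ∈ F, Real.exp (c * zeros p (Region r)) ≤
    Real.exp (C * (1 + r * Real.log X)) * F.ncard) ∧
  -- exponential tail of the number of zeros
  (∀ k : ℕ, ((F ∩ {p | ¬ AtMost p (Region r) k}).ncard : ℝ) ≤
    Real.exp (C * (1 + r * Real.log X)) * Real.exp (-(c * k)) * F.ncard)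

open Pool.Agent.L0h86.RZc Pool.Agent.H306R2.RG

theorem bounds_of {C c : ℝ} (hc : 0 < c) (X : ℕ) {r : ℝ} (hr : r < 1 / 2)
    (T : Finset (Σ N : ℕ, DirichletCharacter ℂ N))
    (hfin : ∀ p ∈ T, ∀ A : Set ℂ, (∀ s ∈ A, 0 < s.re ∧ ‖s - 1 / 2‖ ≤ 1 / 2) → ∃ K, Cnt p A K)
    (h : ∑ p ∈ T, Real.exp (c * num p (Rg r)) ≤
      Real.exp (C * (1 + r * Real.log X)) * T.card) :
    Bounds C c X r (T : Set (Σ N : ℕ, DirichletCharacter ℂ N)) := by
  refine ⟨Finset.finite_toSet T, fun p hp => ?_, ?_, fun k => ?_⟩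
  · obtain ⟨K, hK⟩ := hfin p hp (Rg r) (Rg_sub hr)
    exact num_spec hK
  · rw [finsum_mem_coe_finset, Set.ncard_coe_finset]
    exact h
  · rw [Set.ncard_coe_finset]
    exact tail_of hc (fun p hp => hfin p hp (Rg r) (Rg_sub hr)) h k

/-- **Theorem.** There are constants `C, c > 0` such that for every `X` and every `0 ≤ r < 1/2`:
let `n(χ)` be the number of zeros of `L(s,χ)`, counted with multiplicity, which are real with
`0 < s < 1` or satisfy `|s - 1/2| ≤ r`. Over the nontrivial quadratic Dirichlet characters `χ` of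
modulus at most `X` (and likewise over the primitive ones) the mean of `exp (c n(χ))` is at most
`exp (C (1 + r log X))`, and the proportion of `χ` with `n(χ) > k` is at most
`exp (C (1 + r log X) - c k)`. For `r = 0` this is about the real zeros only. -/
theorem result : ∃ C c : ℝ, 0 < C ∧ 0 < c ∧ ∀ (X : ℕ) (r : ℝ), 0 ≤ r → r < 1 / 2 →
    Bounds C c X r (Quadratic X) ∧ Bounds C c X r (QuadraticPrimitive X) := by
  obtain ⟨C, c, hC, hc, h⟩ := mom0
  refine ⟨C, c, hC, hc, fun X r hr hr2 => ⟨?_, ?_⟩⟩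
  · have hset : Quadratic X = (TA X : Set (Σ N : ℕ, DirichletCharacter ℂ N)) := by
      rw [← TA_eq]
      ext p
      simp only [Quadratic, LnkD.QC, Set.mem_inter_iff, Set.mem_ofPred_eq]
      tauto
    rw [hset]
    exact bounds_of hc X hr2 _ (fun p hp A hA => cnt_finA X hp hA) (momA h hC X r hr hr2)
  · have hset : QuadraticPrimitive X = (TF0 X : Set (Σ N : ℕ, DirichletCharacter ℂ N)) := by
      ext p
      rw [Finset.mem_coe, mem_TF0]
      simp only [QuadraticPrimitive, Quadratic, LnkC.RPC, Set.mem_ofPred_eq]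
      tauto
    rw [hset]
    exact bounds_of hc X hr2 _ (fun p hp A hA => cnt_fin0 X hp hA) (h X r hr hr2)

end Pool.Agent.Results.MP_0016c7_nt.NumberOfRealZeros
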